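import Pool.Agent.W610.HY.Stm

/-!
# Project HY, part LIM: the limit of the partial products on the circle
-/

set_option autoImplicit false

namespace Pool.Agent.W972.HY.LIM

open Pool.Agent.W610.HY
open MeasureTheory Set Metric Filter Topology

theorem hh_continuous (p : ℕ → Polynomial ℂ) (n : ℕ) :
    Continuous fun θ : ℝ => hh p n (circleMap 0 1 θ) := by
  unfold hh
  refine Complex.continuous_exp.comp (Continuous.neg ?_)
  refine continuous_finsetSum _ fun k _ => ?_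
  exact (p k).continuous.comp (continuous_circleMap 0 1)

theorem hh_differentiable (p : ℕ → Polynomial ℂ) (n : ℕ) : Differentiable ℂ (hh p n) := by
  unfold hh
  refine Complex.differentiable_exp.comp (Differentiable.neg ?_)
  exact Differentiable.fun_sum fun k _ => (p k).differentiable

theorem norm_hh (p : ℕ → Polynomial ℂ) (n : ℕ) (z : ℂ) :
    ‖hh p n z‖ = Real.exp (-(∑ k ∈ Finset.range n, ((p k).eval z).re)) := by
  unfold hh
  rw [Complex.norm_exp, Complex.neg_re, Complex.re_sum]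

theorem norm_hh_anti (p : ℕ → Polynomial ℂ)
    (hre : ∀ k (z : ℂ), ‖z‖ = 1 → 0 ≤ ((p k).eval z).re) (θ : ℝ) {n m : ℕ} (h : n ≤ m) :
    ‖hh p m (circleMap 0 1 θ)‖ ≤ ‖hh p n (circleMap 0 1 θ)‖ := by
  rw [norm_hh, norm_hh]
  refine Real.exp_le_exp.2 (neg_le_neg ?_)
  refine Finset.sum_le_sum_of_subset_of_nonneg (Finset.range_mono h) fun k _ _ => ?_
  exact hre k _ (by simp)

theorem norm_hh_le (p : ℕ → Polynomial ℂ)
    (hre : ∀ k (z : ℂ), ‖z‖ = 1 → 0 ≤ ((p k).eval z).re) (θ : ℝ) (n : ℕ) :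
    ‖hh p n (circleMap 0 1 θ)‖ ≤ 1 := by
  have h := norm_hh_anti p hre θ (Nat.zero_le n)
  have h0 : ‖hh p 0 (circleMap 0 1 θ)‖ = 1 := by rw [norm_hh]; simp
  rwa [h0] at h

theorem main (hMEAN : MEAN) (hLTWO : LTWO) : LIM := by
  intro p him hre hsum
  have hpi : (0:ℝ) ≤ 2 * Real.pi := by positivity
  set μ : Measure ℝ := volume.restrict (Ioc (0:ℝ) (2 * Real.pi)) with hμ
  haveI : IsFiniteMeasure μ := by
    rw [hμ]; infer_instance
  have hint : ∀ g : ℝ → ℂ, (∫ θ in (0:ℝ)..(2 * Real.pi), g θ) = ∫ θ, g θ ∂μ := fun g => by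
    rw [intervalIntegral.integral_of_le hpi]
  have hintR : ∀ g : ℝ → ℝ, (∫ θ in (0:ℝ)..(2 * Real.pi), g θ) = ∫ θ, g θ ∂μ := fun g => by
    rw [intervalIntegral.integral_of_le hpi]
  have hμr : μ.real univ = 2 * Real.pi := by
    rw [hμ, measureReal_restrict_apply MeasurableSet.univ]
    simp [Real.volume_real_Ioc, hpi]
  -- the partial sums
  set S : ℕ → ℝ := fun n => ∑ k ∈ Finset.range n, ((p k).eval 0).re with hS
  have hStend : Tendsto S atTop (𝓝 (∑' k, ((p k).eval 0).re)) := hsum.hasSum.tendsto_sum_nat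
  have hSc : CauchySeq S := hStend.cauchySeq
  -- subsequence
  obtain ⟨φ, hφ, hφS⟩ : ∃ φ : ℕ → ℕ, StrictMono φ ∧
      ∀ j, ∀ m, φ j ≤ m → |S m - S (φ j)| < ((1:ℝ)/4) ^ j := by
    have := Filter.extraction_forall_of_eventually
      (P := fun j k => ∀ m, k ≤ m → |S m - S k| < ((1:ℝ)/4) ^ j) (by
        intro j
        obtain ⟨N, hN⟩ := Metric.cauchySeq_iff.1 hSc (((1:ℝ)/4) ^ j) (by positivity)
        filter_upwards [eventually_ge_atTop N] with k hk m hm
        have := hN m (hk.trans hm) k hk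
        rwa [Real.dist_eq] at this)
    exact this
  set F : ℕ → ℝ → ℂ := fun n θ => hh p n (circleMap 0 1 θ) with hF
  have hFc : ∀ n, Continuous (F n) := fun n => hh_continuous p n
  have hFm : ∀ n, AEStronglyMeasurable (F n) μ := fun n => (hFc n).aestronglyMeasurable
  have hFb : ∀ n θ, ‖F n θ‖ ≤ 1 := fun n θ => norm_hh_le p hre θ n
  have hFa : ∀ n m, n ≤ m → ∀ θ, ‖F m θ‖ ≤ ‖F n θ‖ := fun n m h θ => norm_hh_anti p hre θ h
  -- L1 estimate
  have key : ∀ N n m : ℕ, N ≤ n → n ≤ m →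
      eLpNorm (F (φ m) - F (φ n)) 1 μ < ENNReal.ofReal (7 * Real.pi * ((1:ℝ)/2) ^ N) := by
    intro N n m hNn hnm
    have hφnm : φ n ≤ φ m := hφ.monotone hnm
    have h2 := hLTWO p him hre (φ n) (φ m) hφnm
    rw [hintR, Finset.sum_Ico_eq_sub _ hφnm] at h2
    have h3 : S (φ m) - S (φ n) ≤ ((1:ℝ)/4) ^ N := by
      have h4 := hφS n (φ m) hφnm
      have h5 : ((1:ℝ)/4) ^ n ≤ ((1:ℝ)/4) ^ N :=
        pow_le_pow_of_le_one (by norm_num) (by norm_num) hNn
      exact (le_abs_self _).trans (h4.le.trans h5)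
    have h6 : (∫ θ, ‖F (φ m) θ - F (φ n) θ‖ ^ 2 ∂μ) ≤ 4 * Real.pi * ((1:ℝ)/4) ^ N :=
      h2.trans (mul_le_mul_of_nonneg_left h3 (by positivity))
    have hc : Continuous fun θ => F (φ m) θ - F (φ n) θ := (hFc _).sub (hFc _)
    have hb : ∀ θ, ‖F (φ m) θ - F (φ n) θ‖ ≤ 2 := fun θ =>
      (norm_sub_le _ _).trans (by linarith [hFb (φ m) θ, hFb (φ n) θ])
    have hi1 : Integrable (fun θ => ‖F (φ m) θ - F (φ n) θ‖) μ :=
      Integrable.of_bound hc.norm.aestronglyMeasurable 2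
        (Eventually.of_forall fun θ => by simpa using hb θ)
    have hi2 : Integrable (fun θ => ‖F (φ m) θ - F (φ n) θ‖ ^ 2) μ :=
      Integrable.of_bound (hc.norm.pow 2).aestronglyMeasurable 4
        (Eventually.of_forall fun θ => by
          rw [Real.norm_of_nonneg (by positivity)]
          nlinarith [hb θ, norm_nonneg (F (φ m) θ - F (φ n) θ)])
    set ε : ℝ := ((1:ℝ)/2) ^ N with hε
    have hε0 : 0 < ε := by positivity
    have hε4 : ((1:ℝ)/4) ^ N = ε ^ 2 := by
      rw [hε, ← pow_mul, mul_comm, pow_mul]; norm_num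
    have h7 : (∫ θ, ‖F (φ m) θ - F (φ n) θ‖ ∂μ) ≤
        ∫ θ, (ε + ε⁻¹ * ‖F (φ m) θ - F (φ n) θ‖ ^ 2) ∂μ := by
      refine integral_mono hi1 ((integrable_const ε).add (hi2.const_mul _)) fun θ => ?_
      have hx := norm_nonneg (F (φ m) θ - F (φ n) θ)
      set x := ‖F (φ m) θ - F (φ n) θ‖
      show x ≤ ε + ε⁻¹ * x ^ 2
      have h8 : ε * x ≤ ε * (ε + ε⁻¹ * x ^ 2) := by
        rw [mul_add, ← mul_assoc, mul_inv_cancel₀ hε0.ne']
        nlinarith [sq_nonneg (ε - x)]
      exact le_of_mul_le_mul_left h8 hε0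
    rw [integral_add (integrable_const ε) (hi2.const_mul _), integral_const, integral_const_mul,
      hμr] at h7
    have h9 : (∫ θ, ‖F (φ m) θ - F (φ n) θ‖ ∂μ) ≤ 6 * Real.pi * ε := by
      refine h7.trans ?_
      have h10 : ε⁻¹ * (∫ θ, ‖F (φ m) θ - F (φ n) θ‖ ^ 2 ∂μ) ≤ ε⁻¹ * (4 * Real.pi * ε ^ 2) :=
        mul_le_mul_of_nonneg_left (by rw [← hε4]; exact h6) (by positivity)
      have h11 : ε⁻¹ * (4 * Real.pi * ε ^ 2) = 4 * Real.pi * ε := by
        field_simp
      rw [smul_eq_mul]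
      linarith
    rw [eLpNorm_one_eq_lintegral_enorm]
    have h12 : (∫⁻ θ, ‖(F (φ m) - F (φ n)) θ‖ₑ ∂μ) =
        ENNReal.ofReal (∫ θ, ‖F (φ m) θ - F (φ n) θ‖ ∂μ) := by
      have hi3 : Integrable (fun θ => F (φ m) θ - F (φ n) θ) μ :=
        Integrable.of_bound hc.aestronglyMeasurable 2 (Eventually.of_forall hb)
      rw [ofReal_integral_norm_eq_lintegral_enorm hi3]
      rfl
    rw [h12]
    refine (ENNReal.ofReal_lt_ofReal_iff (by positivity)).2 ?_
    have : 6 * Real.pi * ε < 7 * Real.pi * ε := by nlinarith [Real.pi_pos]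
    exact h9.trans_lt this
  have hae : ∀ᵐ θ ∂μ, ∃ l : ℂ, Tendsto (fun j => F (φ j) θ) atTop (𝓝 l) := by
    refine Lp.ae_tendsto_of_cauchy_eLpNorm (p := 1)
      (B := fun N => ENNReal.ofReal (7 * Real.pi * ((1:ℝ)/2) ^ N))
      (fun j => hFm (φ j)) le_rfl ?_ ?_
    · exact Summable.tsum_ofReal_ne_top
        ((summable_geometric_of_lt_one (by norm_num) (by norm_num)).mul_left _)
    · intro N n m hn hm
      rcases le_total n m with h | h
      · rw [eLpNorm_sub_comm]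
        exact key N n m hn h
      · exact key N m n hm h
  obtain ⟨h, hmeas, hlim⟩ := measurable_limit_of_tendsto_metrizable_ae
    (fun j => (hFm (φ j)).aemeasurable) hae
  refine ⟨h, hmeas, ?_, ?_, ?_⟩
  · filter_upwards [hlim] with θ hθ n
    refine le_of_tendsto hθ.norm ?_
    filter_upwards [eventually_ge_atTop n] with j hj
    exact hFa n (φ j) (hj.trans (hφ.id_le j)) θ
  · have hdc : Tendsto (fun j => ∫ θ, F (φ j) θ ∂μ) atTop (𝓝 (∫ θ, h θ ∂μ)) :=
      tendsto_integral_of_dominated_convergence (fun _ => (1:ℝ)) (fun j => hFm (φ j))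
        (integrable_const _) (fun j => Eventually.of_forall fun θ => hFb (φ j) θ) hlim
    have h0 : ∀ n, hh p n 0 = ((Real.exp (-(S n)) : ℝ) : ℂ) := by
      intro n
      unfold hh
      rw [Complex.ofReal_exp]
      congr 1
      rw [Complex.ofReal_neg, hS]
      simp only [Complex.ofReal_sum]
      congr 1
      refine Finset.sum_congr rfl fun k _ => ?_
      refine Complex.ext ?_ ?_
      · simp
      · rw [him k]; simp
    have hval : ∀ j, (∫ θ, F (φ j) θ ∂μ) = 2 * Real.pi * ((Real.exp (-(S (φ j))) : ℝ) : ℂ) := by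
      intro j
      rw [← hint, ← h0]
      exact (hMEAN (hh p (φ j)) (hh_differentiable p _)).1
    have hlim2 : Tendsto (fun j => ∫ θ, F (φ j) θ ∂μ) atTop
        (𝓝 (2 * Real.pi * ((Real.exp (-(∑' k, ((p k).eval 0).re)) : ℝ) : ℂ))) := by
      simp_rw [hval]
      refine Tendsto.const_mul _ ?_
      refine (Complex.continuous_ofReal.tendsto _).comp ?_
      refine (Real.continuous_exp.tendsto _).comp ?_
      exact (hStend.comp hφ.tendsto_atTop).neg
    rw [hint, tendsto_nhds_unique hdc hlim2]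
    refine mul_ne_zero (mul_ne_zero two_ne_zero ?_) ?_
    · exact_mod_cast Real.pi_ne_zero
    · exact_mod_cast (Real.exp_ne_zero _)
  · intro w hw
    have hden : ∀ θ : ℝ, circleMap 0 1 θ - w ≠ 0 := by
      intro θ h0
      have h1 : circleMap 0 1 θ = w := sub_eq_zero.1 h0
      rw [← h1] at hw
      simp at hw
    have hck : Continuous fun θ : ℝ => circleMap 0 1 θ / (circleMap 0 1 θ - w) :=
      (continuous_circleMap 0 1).div ((continuous_circleMap 0 1).sub continuous_const) hden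
    have hkb : ∀ θ : ℝ, ‖circleMap 0 1 θ / (circleMap 0 1 θ - w)‖ ≤ (‖w‖ - 1)⁻¹ := by
      intro θ
      rw [norm_div]
      have h1 : ‖circleMap 0 1 θ‖ = 1 := by simp
      rw [h1, one_div]
      refine inv_anti₀ (by linarith) ?_
      have h2 : ‖w‖ - ‖circleMap 0 1 θ‖ ≤ ‖w - circleMap 0 1 θ‖ := norm_sub_norm_le _ _
      rw [h1, norm_sub_rev] at h2
      exact h2
    have hdc : Tendsto (fun j => ∫ θ, F (φ j) θ * (circleMap 0 1 θ / (circleMap 0 1 θ - w)) ∂μ)
        atTop (𝓝 (∫ θ, h θ * (circleMap 0 1 θ / (circleMap 0 1 θ - w)) ∂μ)) := by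
      refine tendsto_integral_of_dominated_convergence (fun _ => (‖w‖ - 1)⁻¹)
        (fun j => ((hFc (φ j)).mul hck).aestronglyMeasurable) (integrable_const _)
        (fun j => Eventually.of_forall fun θ => ?_) ?_
      · rw [norm_mul]
        calc ‖F (φ j) θ‖ * ‖circleMap 0 1 θ / (circleMap 0 1 θ - w)‖
            ≤ 1 * (‖w‖ - 1)⁻¹ := mul_le_mul (hFb _ _) (hkb θ) (norm_nonneg _) zero_le_one
          _ = (‖w‖ - 1)⁻¹ := one_mul _
      · filter_upwards [hlim] with θ hθ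
        exact hθ.mul_const _
    have hzero : ∀ j, (∫ θ, F (φ j) θ * (circleMap 0 1 θ / (circleMap 0 1 θ - w)) ∂μ) = 0 := by
      intro j
      rw [← hint]
      exact (hMEAN (hh p (φ j)) (hh_differentiable p _)).2 w hw
    simp_rw [hzero] at hdc
    rw [hint]
    exact (tendsto_nhds_unique hdc tendsto_const_nhds)

end Pool.Agent.W972.HY.LIM
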